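import Pool.Agent.TH605.AP.WF

/-! Alternating words (shared by the jobs 2848 and 2853). -/

set_option autoImplicit false

open Set Topology Filter

namespace Pool.Agent.TH914.AP

open Pool.Agent.TH605.AP

/-- the alternating word `b, c, b, c, ...` with `n` letters -/
def alt : Fin 4 → Fin 4 → ℕ → List (Fin 4)
  | _, _, 0 => []
  | b, c, (n + 1) => b :: alt c b n

lemma alt_length (n : ℕ) : ∀ b c : Fin 4, (alt b c n).length = n := by
  induction n with
  | zero => intro b c; rfl
  | succ n ih => intro b c; simp [alt, ih]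

lemma alt_ne (b c : Fin 4) (n : ℕ) : alt b c (n + 1) ≠ [] := by simp [alt]

lemma alt_head (b c : Fin 4) (n : ℕ) : ∀ x ∈ (alt b c n).head?, x = b := by
  cases n with
  | zero => intro x hx; simp [alt] at hx
  | succ n => intro x hx; simp [alt] at hx; exact hx.symm

lemma alt_red (n : ℕ) : ∀ b c : Fin 4, b ≠ c → IsRed (alt b c n) := by
  induction n with
  | zero => intro b c _; exact List.isChain_nil
  | succ n ih =>
    intro b c h
    show List.IsChain (· ≠ ·) (b :: alt c b n)
    rw [List.isChain_cons]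
    exact ⟨fun y hy => by rw [alt_head c b n y hy]; exact h, ih c b h.symm⟩

lemma alt_last (n : ℕ) : ∀ b c x : Fin 4, x ∈ (alt b c n).getLast? → x = b ∨ x = c := by
  induction n with
  | zero => intro b c x hx; simp [alt] at hx
  | succ n ih =>
    intro b c x hx
    cases n with
    | zero => simp [alt] at hx; exact Or.inl hx.symm
    | succ n =>
      have h1 : (alt b c (n + 1 + 1)).getLast? = (alt c b (n + 1)).getLast? := by
        show (b :: c :: alt b c n).getLast? = (c :: alt b c n).getLast?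
        rw [List.getLast?_cons_cons]
      rw [h1] at hx
      exact (ih c b x hx).symm

lemma fix_tp (B : BF) {b c : Fin 4} (h : b ≠ c) : s b (tp b c) = tp b c ∧ s c (tp b c) = tp b c := by
  refine ⟨B.s_fix b _ (B.tp_mem b c h), B.s_fix c _ ?_⟩
  rw [B.tp_symm b c]
  exact B.tp_mem c b h.symm

lemma alt_fix (z : OnePoint ℂ) (n : ℕ) : ∀ b c : Fin 4, s b z = z → s c z = z →
    sg (alt b c n) z = z := by
  induction n with
  | zero => intro b c _ _; rfl
  | succ n ih =>
    intro b c h1 h2
    show s b (sg (alt c b n) z) = z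
    rw [ih c b h2 h1, h1]

lemma alt_mem (z : OnePoint ℂ) (n : ℕ) : ∀ b c : Fin 4, s b z = z → s c z = z → z ∈ Disc b →
    z ∈ Disc c → z ∈ DL (alt b c (n + 1)) := by
  induction n with
  | zero => intro b c _ _ h3 _; exact h3
  | succ n ih =>
    intro b c h1 h2 h3 h4
    show z ∈ s b '' DL (alt c b (n + 1))
    exact ⟨z, ih c b h2 h1 h4 h3, h1⟩

lemma tp_Disc (B : BF) {b c : Fin 4} (h : b ≠ c) : tp b c ∈ Disc b ∧ tp b c ∈ Disc c := by
  refine ⟨(B.tp_mem b c h).le, ?_⟩
  rw [B.tp_symm b c]
  exact (B.tp_mem c b h.symm).le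

/-- the point `sg w (tp b c)` lies in the discs of the words `w ++ alt b c (n + 1)` -/
lemma mem_DL_alt (B : BF) (W : WF) (w : List (Fin 4)) {b c : Fin 4} (h : b ≠ c) (n : ℕ) :
    sg w (tp b c) ∈ DL (w ++ alt b c (n + 1)) := by
  rw [W.DL_append w _ (alt_ne b c n)]
  exact ⟨_, alt_mem _ n b c (fix_tp B h).1 (fix_tp B h).2 (tp_Disc B h).1 (tp_Disc B h).2, rfl⟩

lemma sg_inj (W : WF) (w : List (Fin 4)) : Function.Injective (sg w) := fun x y h => by
  rw [← W.sg_reverse w x, ← W.sg_reverse w y, h]

end Pool.Agent.TH914.AP
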